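import Pool.Agent.Lib.MP_557161_ag.DL.Comp

/-!
The conjecture of Tate on the order of the poles of the zeta function, in every codimension, for
the smooth compactifications of all Deligne-Lusztig varieties of orthogonal and symplectic groups
in odd characteristic.
-/

namespace Pool.Agent.Lib.MP_557161_ag.Old.ClassicalDL

open MvPolynomial Filter Matrix Pool.Agent.Lib.MP_557161_ag.DL

theorem result (p e N l : ℕ) (hp : p.Prime) (hp2 : p ≠ 2) (he : 0 < e)
    (k : Type) [Field k] [Finite k] [CharP k p]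
    (G : Matrix (Fin N) (Fin N) k) (hG : Gᵀ = G ∨ Gᵀ = -G) (hdet : G.det ≠ 0)
    (hq : ∀ i j, G i j ^ p ^ e = G i j) (w : Fin l → Fin (N / 2))
    (d : ℕ) (hd : d = Nat.card {j : Fin l // ¬ (Gᵀ = G ∧ 2 * ((w j : ℕ) + 1) = N)})
    (C : Set (Ideal (MvPolynomial (Idx (Fin N) (N / 2) l) k)))
    (hC : C ⊆ (ideal k G (p ^ e) w).minimalPrimes)
    (L : ℕ → Type) [∀ m, Field (L m)] [∀ m, Algebra k (L m)]
    (hL : ∀ m, Module.finrank k (L m) = m + 1) :
    SmProj (sInf C) d ∧ ∃ ζ : ℂ → ℂ, IsZeta (sInf C) d L ζ ∧ TateOrd (sInf C) d ζ := by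
  have hF : Form G (p ^ e) := ⟨⟨p, e, hp, hp2, inferInstance, he, rfl⟩, hG, hdet, hq⟩
  have hn : N / 2 = Fintype.card (Fin N) / 2 := by rw [Fintype.card_fin]
  obtain rfl : d = dimW G w := by
    classical
    rw [hd, dimW, Nat.card_eq_fintype_card, Fintype.card_subtype, Fintype.card_fin]
  have g1 := model_homog (G := G) (q := p ^ e) w
  have g2 := model_smooth hF hn w
  have h1 := comp_homog g1 hC
  have h2 := fun s => comp_smooth g1 hC (g2 s)
  have h3 := fun P hP => model_dim hF hn w P (hC (comp_min hC hP))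
  obtain ⟨ζ, z1, z2, z3⟩ := tate h1 h2 h3 (comp_ck g1 g2 hC (ck_model hF hn w)).van L hL
  exact ⟨⟨h1, h2, h3, fun i P => nonempty_res h1 P.2.2.1 P.2.2.2.1,
    fun i n h P Q F => chi_eventually h1 h2 h3 h P Q F⟩, ζ, ⟨z1, z2⟩, z3⟩

end Pool.Agent.Lib.MP_557161_ag.Old.ClassicalDL
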