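import Pool.Agent.Lib.MP_557161_ag.HC.All3

/-!
The conjecture of Tate on the pole of the zeta function in the middle codimension for cyclic covers
of prime degree of projective spaces of even dimension in hypergeometric families.
-/

namespace Pool.Agent.Lib.MP_557161_ag.Old.CyclicCovers

open MvPolynomial Pool.Agent.Lib.MP_557161_ag.DL
open Pool.Agent.Lib.MP_557161_ag.HG.HN.HC (dpI all)

theorem result (k : Type) [Field k] [Finite k] (d m e u n : ℕ) (a w : Fin (2 * d + 1) → ℕ)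
    (lam : k) (hd : 0 < d) (hm : m.Prime) (hq : m ∣ Nat.card k + 1) (hu : u + 1 = m * e)
    (hn : n * (u + 1) = u ^ (2 * d + 1) + 1) (hw : ∀ i, n * w i = u * a i + a (i - 1))
    (hod : ∀ i, Odd (a i)) (hsum : ∑ i, w i = m * e) (hcop : Finset.univ.gcd a = 1)
    (hnd : ¬ m ∣ n * ∏ i, a i) (hch : ((m * e * n * ∏ i, a i : ℕ) : k) ≠ 0) (h0 : lam ≠ 0)
    (hdisc : lam ^ n * ∏ i, (a i : k) ^ a i ≠ (-(n : k)) ^ n)
    (F : MvPolynomial (Fin (2 * d + 1)) k)
    (hF : F = ∑ i, X i ^ u * X (i + 1) + C lam * ∏ i, X i ^ w i)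
    (L : ℕ → Type) [∀ j, Field (L j)] [∀ j, Algebra k (L j)]
    (hL : ∀ j, Module.finrank k (L j) = j + 1) :
    SmProj (dpI m e F) (2 * d) ∧ ∃ ζ : ℂ → ℂ, IsZeta (dpI m e F) (2 * d) L ζ ∧
      (((-3 * (m - 1) : ℤ) : WithTop ℤ) ≤ meromorphicOrderAt ζ d +
          meromorphicOrderAt ζ (d + Real.pi * Complex.I / Real.log (Nat.card k)) →
        ∀ R : ∀ P : Var (dpI m e F) d, Res (dpI m e F) P.1, ∃ ρ : ℕ,
          Module.rank ℤ (Num (dpI m e F) d d R) = ρ ∧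
            meromorphicOrderAt ζ d = (-(ρ : ℤ) : ℤ)) := by
  subst hF
  obtain ⟨h1, ζ, h2, h3⟩ := all hd hm hq hu hn hw hod hsum hcop hnd hch h0 hdisc L hL
  exact ⟨h1, ζ, h2, fun h => (h3 h).1⟩

end Pool.Agent.Lib.MP_557161_ag.Old.CyclicCovers
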