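import Mathlib
import Pool.Agent.Shared.FermatCount
import Pool.Agent.Lib.MP_557161_ag.G2.Count
import Pool.Agent.Lib.MP_557161_ag.G2.Rank

/-!
For the Deligne-Lusztig surface of type `G₂` in projective six-space over a finite field that
contains the field with `q ^ 6` elements, the order of the pole of the zeta function at `s = 1` is
the rank of the group of divisors modulo numerical equivalence.
-/

namespace Pool.Agent.Lib.MP_557161_ag.Old.G2Surface

open Pool.Agent.Lib.MP_557161_ag.G2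

theorem result (p e r : ℕ) [Fact p.Prime] (he : 0 < e) (k : Type) [Field k] [Finite k] [CharP k p]
    (hk : Nat.card k = (p ^ e) ^ (6 * r)) :
    (∀ i ≠ 0, Algebra.Smooth k (Chart (ideal k (p ^ e)) i)) ∧
    (∀ P : Pt (ideal k (p ^ e)), ∃ i ≠ 0, MvPolynomial.X i ∉ P.1) ∧
    (∀ P : Pt (ideal k (p ^ e)), IsMax P → Order.height P = 2) ∧
    (∀ C D : Curve (ideal k (p ^ e)), ∀ᶠ n in Filter.atTop, chi C D n = inter C D) ∧
    ∃ ρ : ℕ, Module.rank ℤ (Num (ideal k (p ^ e))) = ρ ∧
      ρ + (p ^ e) ^ 3 = 2 * (p ^ e) ^ 5 + 2 * p ^ e + 1 ∧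
      ∃ ζ : ℂ → ℂ, Meromorphic ζ ∧
        (∀ s : ℂ, 2 < s.re → ζ s = Complex.exp (∑' j : ℕ,
          (points (FiniteField.Extension k p (j + 1)) (p ^ e) : ℂ) *
            (Nat.card k : ℂ) ^ (-((j + 1 : ℕ) : ℂ) * s) / ((j + 1 : ℕ) : ℂ))) ∧
        meromorphicOrderAt ζ 1 = ((-ρ : ℤ) : WithTop ℤ) := by
  classical
  have : Big k (p ^ e) :=
    { fr := fun R _ _ => Fr.of_algebra (k := k) p e he R, card := card_fixed p e he k r hk }
  have hq : 1 ≤ p ^ e := one_le_two.trans (FQ.fr (k := k) (q := p ^ e) k).two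
  have hρ : 2 * (p ^ e) ^ 5 + 2 * p ^ e + 1 - (p ^ e) ^ 3 + (p ^ e) ^ 3 =
      2 * (p ^ e) ^ 5 + 2 * p ^ e + 1 := Nat.sub_add_cancel (by
    have := Nat.pow_le_pow_right hq (show 3 ≤ 5 by decide)
    omega)
  refine ⟨fun i hi => smooth_chart hi, fun P => Pt.exists_i P, height_max, chi_ev, _, rank_num, hρ,
    ?_⟩
  generalize 2 * (p ^ e) ^ 5 + 2 * p ^ e + 1 - (p ^ e) ^ 3 = ρ at hρ
  have hk1 : 1 < Nat.card k := Finite.one_lt_card
  have hk2 : (1 : ℝ) ≤ Nat.card k := by exact_mod_cast hk1.le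
  obtain ⟨ζ, h1, h2, h3⟩ := Pool.Agent.Shared.FermatCount.zeta_order
    (Finset.univ : Finset (Bool ⊕ Fin ρ))
    (Sum.elim (fun b => (Nat.card k : ℂ) ^ (if b then 2 else 0)) fun _ => (Nat.card k : ℂ) ^ 1)
    (Nat.card k) hk1 2 1
    (by
      rintro (b | a) -
      · rw [Sum.elim_inl, norm_pow, Complex.norm_natCast]
        exact pow_le_pow_right₀ hk2 (by split_ifs <;> omega)
      · rw [Sum.elim_inr, norm_pow, Complex.norm_natCast]
        exact pow_le_pow_right₀ hk2 one_le_two)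
    (fun j => (points (FiniteField.Extension k p (j + 1)) (p ^ e) : ℂ)) (fun j => by
      have : CharP (FiniteField.Extension k p (j + 1)) p :=
        charP_of_injective_algebraMap (algebraMap k _).injective p
      have h := points_eq p e he (FiniteField.Extension k p (j + 1)) (r * (j + 1))
        (by rw [FiniteField.natCard_extension, hk, ← pow_mul, mul_assoc])
      rw [← hρ, FiniteField.natCard_extension] at h
      have h' := congrArg (Nat.cast : ℕ → ℂ) h
      push_cast at h'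
      simp only [Fintype.sum_sum_type, Sum.elim_inl, Sum.elim_inr, Fintype.sum_bool, if_true,
        Bool.false_eq_true, if_false, Finset.sum_const, Finset.card_univ, Fintype.card_fin,
        nsmul_eq_mul]
      linear_combination h')
  refine ⟨ζ, h1, fun s hs => h2 s (by exact_mod_cast hs), ?_⟩
  rw [Nat.cast_one] at h3
  rw [h3]
  have h4 : ∀ i : ℕ, (Nat.card k : ℂ) ^ i = (Nat.card k : ℂ) ^ 1 ↔ i = 1 := fun i => by
    rw [← Nat.cast_pow, ← Nat.cast_pow, Nat.cast_inj, Nat.pow_right_inj hk1]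
  simp only [Fintype.sum_sum_type, Sum.elim_inl, Sum.elim_inr, h4]
  simp

end Pool.Agent.Lib.MP_557161_ag.Old.G2Surface
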