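import Pool.Agent.Lib.MP_557161_ag.TW.All3

/-!
The conjecture of Tate on the pole of the zeta function at `s = 1` for the resolved surfaces
`z ^ 2 = (x - y) f (x) D (y)`, `D` irreducible.
-/

namespace Pool.Agent.Lib.MP_557161_ag.Old.TwistSurfaces

open Pool.Agent.Lib.MP_557161_ag.DL
open Pool.Agent.Lib.MP_557161_ag.HG.TW.P2 (twI final)

theorem result (k : Type) [Field k] [Finite k] (h2 : (2 : k) ≠ 0) (g h : ℕ) (hg : 0 < g)
    (hh : 0 < h) (f D : Polynomial k) (hf : Squarefree f) (f1 : 2 * g ≤ f.natDegree)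
    (f2 : f.natDegree ≤ 2 * g + 1) (hD : Irreducible D) (D1 : D.natDegree = 2 * h + 1)
    (hc : ∀ u : Polynomial k, Irreducible u → u ∣ f → Nat.Coprime u.natDegree (2 * h + 1))
    (P Q : MvPolynomial (Fin 2) k) (hP : P = f.homogenize (2 * g + 1))
    (hQ : Q = D.homogenize (2 * h + 1))
    (L : ℕ → Type) [∀ m, Field (L m)] [∀ m, Algebra k (L m)]
    (hL : ∀ m, Module.finrank k (L m) = m + 1) :
    SmProj (twI g h P Q) 2 ∧ ∃ ζ : ℂ → ℂ, IsZeta (twI g h P Q) 2 L ζ ∧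
      ∀ R : ∀ Z : Var (twI g h P Q) 1, Res (twI g h P Q) Z.1, ∃ ρ : ℕ,
        Module.rank ℤ (Num (twI g h P Q) 1 1 R) = ρ ∧
          meromorphicOrderAt ζ 1 = (-(ρ : ℤ) : ℤ) := by
  subst hP hQ
  obtain ⟨h1, ζ, h3, h4⟩ := final ⟨h2, hg, hh, hf, hD.squarefree,
    (hD.coprime_iff_not_dvd.2 fun e => by simpa [D1, hh.ne'] using hc D hD e).symm,
    f1, f2, by omega, D1.le, Or.inr D1⟩ L hL
  exact ⟨h1, ζ, h3, (h4 (.inl ⟨hD, D1, hc⟩)).1⟩

end Pool.Agent.Lib.MP_557161_ag.Old.TwistSurfaces
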